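import Mathlib
import Pool.Agent.Lib.MP_4dd1f4_al.Groups

set_option autoImplicit false

/-!
# No doubly transitive quandle homomorphism has a fiber with six elements
-/

namespace Pool.Agent.Results.MP_4dd1f4_al.NoSixFiber

open Pool.Agent.Lib.MP_4dd1f4_al

universe u v

/-! ## Definitions -/

/-- The inner automorphism group `Inn(P)`: the group of permutations of the quandle `P`
generated by all the maps `s_x : y ↦ x ◃ y`. -/
def inn (P : Type u) [Quandle P] : Subgroup (Equiv.Perm P) :=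
  Subgroup.closure (Set.range fun x : P => Rack.act' x)

/-- The relative inner automorphism group `Inn(f)` of a quandle homomorphism `f : P → Q`:
the inner automorphisms of `P` mapping every fiber of `f` to itself. -/
def relInn {P : Type u} {Q : Type v} [Quandle P] [Quandle Q] (f : ShelfHom P Q) :
    Subgroup (Equiv.Perm P) where
  carrier := {g | g ∈ inn P ∧ ∀ p, f (g p) = f p}
  mul_mem' := by
    rintro g h ⟨hg, hg'⟩ ⟨hh, hh'⟩
    exact ⟨mul_mem hg hh, fun p => by rw [Equiv.Perm.mul_apply, hg', hh']⟩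
  one_mem' := ⟨one_mem _, fun p => rfl⟩
  inv_mem' := by
    rintro g ⟨hg, hg'⟩
    exact ⟨inv_mem hg, fun p => by rw [← hg' (g⁻¹ p), perm_apply_inv]⟩

/-- The quandle homomorphism `f : P → Q` is doubly transitive: it is surjective, and for every
`q` in `Q` the group `Inn(f)` acts transitively on the ordered pairs of distinct points of the
fiber of `f` over `q`. -/
def IsDoublyTransitive {P : Type u} {Q : Type v} [Quandle P] [Quandle Q] (f : ShelfHom P Q) :
    Prop :=
  Function.Surjective f ∧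
    ∀ (q : Q) (a b a' b' : P), f a = q → f b = q → f a' = q → f b' = q → a ≠ b → a' ≠ b' →
      ∃ g ∈ relInn f, g a = a' ∧ g b = b'

/-! ## Basic properties -/

section Basic

variable {P : Type u} {Q : Type v} [Quandle P] [Quandle Q] (f : ShelfHom P Q)

theorem act_mem_inn (x : P) : Rack.act' x ∈ inn P := Subgroup.subset_closure ⟨x, rfl⟩

theorem conj_act {g : Equiv.Perm P} (hg : g ∈ inn P) (x : P) :
    g * Rack.act' x * g⁻¹ = Rack.act' (g x) := by
  induction hg using Subgroup.closure_induction generalizing x with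
  | mem g hg =>
    obtain ⟨y, rfl⟩ := hg
    exact (Rack.ad_conj y x).symm
  | one => simp
  | mul g h _ _ ihg ihh =>
    have : g * h * Rack.act' x * (g * h)⁻¹ = g * (h * Rack.act' x * h⁻¹) * g⁻¹ := by group
    rw [this, ihh, ihg]
    rfl
  | inv g _ ih =>
    have h1 := ih (g⁻¹ x)
    rw [perm_apply_inv] at h1
    rw [← h1]
    group

theorem act_comp_inn {g : Equiv.Perm P} (hg : g ∈ inn P) (x : P) :
    g * Rack.act' x = Rack.act' (g x) * g := by
  rw [← conj_act hg x]; group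

theorem map_act (x y : P) : f (Rack.act' x y) = Shelf.act (f x) (f y) := f.map_act'

/-- Inner automorphisms preserve the equivalence relation `f p = f p'`. -/
theorem inn_compat {g : Equiv.Perm P} (hg : g ∈ inn P) (p p' : P) :
    f (g p) = f (g p') ↔ f p = f p' := by
  induction hg using Subgroup.closure_induction generalizing p p' with
  | mem g hg =>
    obtain ⟨y, rfl⟩ := hg
    simp only [map_act]
    exact Rack.left_cancel (f y)
  | one => rfl
  | mul g h _ _ ihg ihh => rw [Equiv.Perm.mul_apply, Equiv.Perm.mul_apply, ihg, ihh]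
  | inv g _ ih => rw [← ih, perm_apply_inv, perm_apply_inv]

theorem relInn_le : relInn f ≤ inn P := fun _ hg => hg.1

theorem conj_relInn {g h : Equiv.Perm P} (hg : g ∈ inn P) (hh : h ∈ relInn f) :
    g * h * g⁻¹ ∈ relInn f := by
  refine ⟨mul_mem (mul_mem hg hh.1) (inv_mem hg), fun p => ?_⟩
  have h1 : f (g (h (g⁻¹ p))) = f (g (g⁻¹ p)) := (inn_compat f hg _ _).2 (hh.2 _)
  rw [perm_apply_inv] at h1
  exact h1

theorem act_act_inv_mem {x y : P} (hxy : f x = f y) :
    Rack.act' y * (Rack.act' x)⁻¹ ∈ relInn f := by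
  refine ⟨mul_mem (act_mem_inn y) (inv_mem (act_mem_inn x)), fun p => ?_⟩
  rw [Equiv.Perm.mul_apply, map_act, ← hxy, ← map_act, perm_apply_inv]

/-- The fiber over `q`. -/
abbrev Fiber (q : Q) : Type u := {p : P // f p = q}

instance (q : Q) : MulAction (relInn f) (Fiber f q) where
  smul g p := ⟨(g : Equiv.Perm P) p, (g.2.2 p).trans p.2⟩
  one_smul _ := rfl
  mul_smul _ _ _ := rfl

theorem smul_coe (q : Q) (g : relInn f) (p : Fiber f q) :
    ((g • p : Fiber f q) : P) = (g : Equiv.Perm P) p := rfl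

/-- The pointwise stabilizer in `Inn(f)` of the fiber over `q`. -/
def ptStab (q : Q) : Subgroup (relInn f) where
  carrier := {g | ∀ p : P, f p = q → (g : Equiv.Perm P) p = p}
  mul_mem' := by
    intro g h hg hh p hp
    change (g : Equiv.Perm P) ((h : Equiv.Perm P) p) = p
    rw [hh p hp, hg p hp]
  one_mem' := fun p _ => rfl
  inv_mem' := by
    intro g hg p hp
    change (g : Equiv.Perm P)⁻¹ p = p
    rw [Equiv.Perm.inv_eq_iff_eq, hg p hp]

theorem mem_ptStab {q : Q} {g : relInn f} :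
    g ∈ ptStab f q ↔ ∀ p : P, f p = q → (g : Equiv.Perm P) p = p := Iff.rfl

instance (q : Q) : (ptStab f q).Normal where
  conj_mem := by
    intro g hg h p hp
    change (h : Equiv.Perm P) ((g : Equiv.Perm P) ((h : Equiv.Perm P)⁻¹ p)) = p
    have h1 : f ((h : Equiv.Perm P)⁻¹ p) = q := by
      have h2 := (h⁻¹ : relInn f).2.2 p
      exact h2.trans hp
    rw [hg _ h1, perm_apply_inv]

variable {f}

theorem fiber_twoTrans (hf : IsDoublyTransitive f) (q : Q) :
    TwoTrans (relInn f) (Fiber f q) := by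
  rintro ⟨a, ha⟩ ⟨b, hb⟩ ⟨a', ha'⟩ ⟨b', hb'⟩ hab hab'
  obtain ⟨g, hg, h1, h2⟩ := hf.2 q a b a' b' ha hb ha' hb' (fun h => hab (Subtype.ext h))
    (fun h => hab' (Subtype.ext h))
  exact ⟨⟨g, hg⟩, Subtype.ext h1, Subtype.ext h2⟩

end Basic

/-! ## The main argument -/

section Main

variable {P : Type u} {Q : Type v} [Quandle P] [Quandle Q] {f : ShelfHom P Q}

/-- Step 1: some `s_y s_x⁻¹` with `f x = f y` acts nontrivially on the fiber. -/
theorem step1 (hf : IsDoublyTransitive f) {q : Q} (h6 : Nat.card (Fiber f q) = 6) :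
    ∃ x y : P, f x = f y ∧ ∃ p : P, f p = q ∧ Rack.act' y ((Rack.act' x)⁻¹ p) ≠ p := by
  by_contra hcon
  push Not at hcon
  -- `D`: the permutations all of whose `Inn(P)`-conjugates act trivially on the fiber
  let D : Subgroup (Equiv.Perm P) :=
    { carrier := {d | ∀ g ∈ inn P, ∀ p : P, f p = q → (g * d * g⁻¹) p = p}
      mul_mem' := by
        intro d e hd he g hg p hp
        have h1 : g * (d * e) * g⁻¹ = (g * d * g⁻¹) * (g * e * g⁻¹) := by group
        rw [h1, Equiv.Perm.mul_apply, he g hg p hp, hd g hg p hp]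
      one_mem' := by
        intro g hg p hp
        simp
      inv_mem' := by
        intro d hd g hg p hp
        have h1 : g * d⁻¹ * g⁻¹ = (g * d * g⁻¹)⁻¹ := by group
        rw [h1, Equiv.Perm.inv_eq_iff_eq, hd g hg p hp] }
  have hDconj : ∀ d ∈ D, ∀ g ∈ inn P, g * d * g⁻¹ ∈ D := by
    intro d hd g hg g' hg' p hp
    have h1 : g' * (g * d * g⁻¹) * g'⁻¹ = (g' * g) * d * (g' * g)⁻¹ := by group
    rw [h1]
    exact hd _ (mul_mem hg' hg) p hp
  have hDgen : ∀ x y : P, f x = f y → Rack.act' y * (Rack.act' x)⁻¹ ∈ D := by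
    intro x y hxy g hg p hp
    have h1 : g * (Rack.act' y * (Rack.act' x)⁻¹) * g⁻¹
        = (g * Rack.act' y * g⁻¹) * (g * Rack.act' x * g⁻¹)⁻¹ := by group
    rw [h1, conj_act hg, conj_act hg]
    exact hcon _ _ ((inn_compat f hg x y).2 hxy) p hp
  have hcomm : ∀ h ∈ relInn f, ∀ g ∈ inn P, h * g * h⁻¹ * g⁻¹ ∈ D := by
    intro h hh g hg
    induction hg using Subgroup.closure_induction with
    | mem g hg =>
      obtain ⟨x, rfl⟩ := hg
      rw [conj_act hh.1]
      exact hDgen _ _ (hh.2 x).symm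
    | one => simp [D.one_mem]
    | mul g1 g2 hg1 hg2 ih1 ih2 =>
      have h1 : h * (g1 * g2) * h⁻¹ * (g1 * g2)⁻¹
          = (h * g1 * h⁻¹ * g1⁻¹) * (g1 * (h * g2 * h⁻¹ * g2⁻¹) * g1⁻¹) := by group
      rw [h1]
      exact D.mul_mem ih1 (hDconj _ ih2 _ hg1)
    | inv g hg ih =>
      have h1 : h * g⁻¹ * h⁻¹ * g⁻¹⁻¹ = g⁻¹ * (h * g * h⁻¹ * g⁻¹)⁻¹ * (g⁻¹)⁻¹ := by group
      rw [h1]
      exact hDconj _ (D.inv_mem ih) _ (inv_mem hg)
  have hab : ∀ h ∈ relInn f, ∀ k ∈ relInn f, ∀ p : P, f p = q → h (k p) = k (h p) := by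
    intro h hh k hk p hp
    have h1 := hcomm h hh k hk.1 1 (one_mem _) (k (h p)) (by rw [hk.2, hh.2, hp])
    have h2 : (1 * (h * k * h⁻¹ * k⁻¹) * 1⁻¹ : Equiv.Perm P) (k (h p)) = h (k p) := by
      simp only [one_mul, inv_one, mul_one, Equiv.Perm.mul_apply, perm_inv_apply]
    rw [h2] at h1
    exact h1
  -- three distinct points of the fiber
  have hfin : Finite (Fiber f q) := Nat.finite_of_card_ne_zero (by omega)
  obtain ⟨a, b, c, hab1, hac1, hbc1⟩ : ∃ a b c : Fiber f q, a ≠ b ∧ a ≠ c ∧ b ≠ c := by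
    have : Fintype (Fiber f q) := Fintype.ofFinite _
    rw [← Fintype.two_lt_card_iff, ← Nat.card_eq_fintype_card, h6]
    omega
  obtain ⟨h, hh⟩ := fiber_twoTrans hf q a b a c hab1 hac1
  obtain ⟨k, hk⟩ := fiber_twoTrans hf q a b b a hab1 hab1.symm
  have h1 := hab h h.2 k k.2 a a.2
  have h2 : (h : Equiv.Perm P) a = a := congrArg Subtype.val hh.1
  have h3 : (h : Equiv.Perm P) b = c := congrArg Subtype.val hh.2
  have h4 : (k : Equiv.Perm P) a = b := congrArg Subtype.val hk.1
  rw [h4, h2, h4, h3] at h1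
  exact hbc1 (Subtype.ext h1.symm)

theorem act_fiber (x p : P) (q : Q) :
    f (Rack.act' x p) = q ↔ f p = Rack.invAct (f x) q := by
  rw [map_act]
  constructor
  · rintro rfl
    exact (Rack.invAct_act_eq (f x) (f p)).symm
  · intro h
    rw [h, Rack.act_invAct_eq]

theorem act_fiber_self (x p : P) : f (Rack.act' x p) = f x ↔ f p = f x := by
  rw [map_act]
  constructor
  · intro h
    rw [← Rack.left_cancel (f x), h, Quandle.fix]
  · intro h
    rw [h, Quandle.fix]

/-- The restriction of `s_x` to the fiber containing `x`. -/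
def fiberAct (x : P) : Equiv.Perm (Fiber f (f x)) where
  toFun p := ⟨Rack.act' x p, (act_fiber_self x p.1).2 p.2⟩
  invFun p := ⟨(Rack.act' x)⁻¹ p, (act_fiber_self x _).1 (by rw [perm_apply_inv]; exact p.2)⟩
  left_inv p := Subtype.ext (perm_inv_apply _ _)
  right_inv p := Subtype.ext (perm_apply_inv _ _)

/-- Elements of `Inn(f)` fixing `x` commute with `s_x`. -/
theorem comm_act {g : Equiv.Perm P} (hg : g ∈ inn P) {x : P} (hx : g x = x) (p : P) :
    g (Rack.act' x p) = Rack.act' x (g p) := by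
  have h1 := act_comp_inn hg x
  rw [hx] at h1
  exact congrArg (fun e : Equiv.Perm P => e p) h1

/-- The main theorem in the form of a contradiction. -/
theorem main (hf : IsDoublyTransitive f) {q : Q} (h6 : Nat.card (Fiber f q) = 6) : False := by
  obtain ⟨x0, y0, hxy0, p0, hp0, hne0⟩ := step1 hf h6
  have hxy0' : x0 ≠ y0 := by
    rintro rfl
    apply hne0
    rw [perm_apply_inv]
  set q' : Q := f x0 with hq'
  set q3 : Q := Rack.invAct (f x0) q with hq3
  have hfib3 : ∀ p : P, f p = q3 ↔ f (Rack.act' x0 p) = q := fun p => (act_fiber x0 p q).symm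
  -- Step 2
  have step2 : ∀ h : relInn f, h ∈ ptStab f q → h ∈ ptStab f q3 → h ∈ ptStab f q' := by
    intro h hhq hhq3 w hw
    by_contra hhw
    have hfw : f ((h : Equiv.Perm P) w) = q' := (h.2.2 w).trans hw
    obtain ⟨g, hg, hg1, hg2⟩ := hf.2 q' w (h.1 w) x0 y0 hw hfw rfl hxy0.symm
      (fun h1 => hhw h1.symm) hxy0'
    have hk1 : (⟨g, hg⟩ * h * ⟨g, hg⟩⁻¹ : relInn f) ∈ ptStab f q :=
      Subgroup.Normal.conj_mem inferInstance h hhq _
    have hk2 : (⟨g, hg⟩ * h * ⟨g, hg⟩⁻¹ : relInn f) ∈ ptStab f q3 :=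
      Subgroup.Normal.conj_mem inferInstance h hhq3 _
    set k : relInn f := ⟨g, hg⟩ * h * ⟨g, hg⟩⁻¹ with hk
    have hkx : (k : Equiv.Perm P) x0 = y0 := by
      change g ((h : Equiv.Perm P) (g⁻¹ x0)) = y0
      rw [← hg1, perm_inv_apply, hg2]
    have h1 : Rack.act' y0 = (k : Equiv.Perm P) * Rack.act' x0 * (k : Equiv.Perm P)⁻¹ := by
      rw [conj_act k.2.1, hkx]
    apply hne0
    rw [h1, Equiv.Perm.mul_apply, Equiv.Perm.mul_apply]
    have h2 : f ((Rack.act' x0)⁻¹ p0) = q3 := by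
      rw [hfib3, perm_apply_inv, hp0]
    have h3 : (k : Equiv.Perm P)⁻¹ ((Rack.act' x0)⁻¹ p0) = (Rack.act' x0)⁻¹ p0 :=
      (inv_mem hk2 : k⁻¹ ∈ ptStab f q3) _ h2
    rw [h3, perm_apply_inv, hk1 p0 hp0]
  -- Step 3
  have hd : (⟨_, act_act_inv_mem f hxy0⟩ : relInn f)
      ∈ Subgroup.centralizer (ptStab f q' : Set (relInn f)) := by
    rw [Subgroup.mem_centralizer_iff]
    intro l hl
    apply Subtype.ext
    change (l : Equiv.Perm P) * (Rack.act' y0 * (Rack.act' x0)⁻¹)
      = Rack.act' y0 * (Rack.act' x0)⁻¹ * (l : Equiv.Perm P)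
    have hlx : (l : Equiv.Perm P) x0 = x0 := hl x0 rfl
    have hly : (l : Equiv.Perm P) y0 = y0 := hl y0 hxy0.symm
    have h1 := act_comp_inn l.2.1 x0
    have h2 := act_comp_inn l.2.1 y0
    rw [hlx] at h1
    rw [hly] at h2
    have h3 : (l : Equiv.Perm P) * (Rack.act' x0)⁻¹ = (Rack.act' x0)⁻¹ * (l : Equiv.Perm P) := by
      rw [eq_inv_mul_iff_mul_eq, ← mul_assoc, ← h1, mul_assoc, mul_inv_cancel, mul_one]
    rw [← mul_assoc, h2, mul_assoc, h3, mul_assoc]
  have step3 : ptStab f q' ≤ ptStab f q := by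
    by_contra hcon
    rw [SetLike.not_le_iff_exists] at hcon
    obtain ⟨l, hl, hlq⟩ := hcon
    rw [mem_ptStab] at hlq
    push Not at hlq
    obtain ⟨w, hw, hlw⟩ := hlq
    have hex : ∃ l ∈ ptStab f q', ∃ w : Fiber f q, l • w ≠ w :=
      ⟨l, hl, ⟨w, hw⟩, fun h => hlw (congrArg Subtype.val h)⟩
    obtain ⟨⟨a, ha, ha2, ha1⟩, ⟨b, hb, hb3, hb1⟩⟩ :=
      exists_order_two_three h6 (fiber_twoTrans hf q) (ptStab f q') hex
    refine no_semiregular (fiber_twoTrans hf q) (ptStab f q') ?_ ha hb ha1 hb1 ha2 hb3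
    intro l hl w hlw w'
    have hnorm : (Subgroup.centralizer (ptStab f q' : Set (relInn f))).Normal :=
      inferInstance
    obtain ⟨c, hc, hcw⟩ := normal_trans (fiber_twoTrans hf q)
      (Subgroup.centralizer (ptStab f q' : Set (relInn f))) hd (a := ⟨p0, hp0⟩)
      (fun h => hne0 (congrArg Subtype.val h)) w w'
    rw [← hcw, ← mul_smul, Subgroup.mem_centralizer_iff.1 hc l hl, mul_smul, hlw]
  have step3' : ptStab f q' ≤ ptStab f q3 := by
    intro h hh p hp
    have hhx : (h : Equiv.Perm P) x0 = x0 := hh x0 rfl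
    have h1 : (h : Equiv.Perm P) (Rack.act' x0 p) = Rack.act' x0 p :=
      step3 hh _ ((hfib3 p).1 hp)
    rw [comm_act h.2.1 hhx] at h1
    exact (Rack.act' x0).injective h1
  -- Step 4
  have h63 : Nat.card (Fiber f q3) = 6 := by
    rw [← h6]
    apply Nat.card_congr
    exact (Rack.act' x0).subtypeEquiv (fun p => hfib3 p)
  have step4 : ptStab f q ≤ ptStab f q' := by
    by_contra hcon
    rw [SetLike.not_le_iff_exists] at hcon
    obtain ⟨k, hk, hkq'⟩ := hcon
    -- `K(q)` acts nontrivially on the fiber over `q3`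
    have hex : ∃ l ∈ ptStab f q, ∃ w : Fiber f q3, l • w ≠ w := by
      refine ⟨k, hk, ?_⟩
      by_contra hcon
      push Not at hcon
      apply hkq'
      apply step2 k hk
      intro p hp
      exact congrArg Subtype.val (hcon ⟨p, hp⟩)
    obtain ⟨⟨a, ha, ha2, ha1⟩, ⟨b, hb, hb3, hb1⟩⟩ :=
      exists_order_two_three h63 (fiber_twoTrans hf q3) (ptStab f q) hex
    -- transfer of triviality between the fibers over `q3` and `q'`
    have htr1 : ∀ l ∈ ptStab f q, (∀ w : Fiber f q3, l • w = w) →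
        ∀ w : Fiber f q', l • w = w := by
      intro l hl h w
      have h1 : l ∈ ptStab f q3 := fun p hp => congrArg Subtype.val (h ⟨p, hp⟩)
      exact Subtype.ext (step2 l hl h1 w.1 w.2)
    have htr2 : ∀ l : relInn f, (∀ w : Fiber f q', l • w = w) →
        ∀ w : Fiber f q3, l • w = w := by
      intro l h w
      have h1 : l ∈ ptStab f q' := fun p hp => congrArg Subtype.val (h ⟨p, hp⟩)
      exact Subtype.ext (step3' h1 w.1 w.2)
    have hnt : ∀ l : relInn f, (∃ w : Fiber f q3, l • w ≠ w) → ∃ w : Fiber f q', l • w ≠ w := by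
      intro l h
      by_contra hcon
      push Not at hcon
      obtain ⟨w, hw⟩ := h
      exact hw (htr2 l hcon w)
    -- `K(q3)` acts transitively on the fiber over `q'`
    rw [mem_ptStab] at hkq'
    push Not at hkq'
    obtain ⟨w0, hw0, hkw0⟩ := hkq'
    have hk3mem : (Rack.act' x0)⁻¹ * (k : Equiv.Perm P) * (Rack.act' x0)⁻¹⁻¹ ∈ relInn f :=
      conj_relInn f (inv_mem (act_mem_inn x0)) k.2
    have hk3 : (⟨_, hk3mem⟩ : relInn f) ∈ ptStab f q3 := by
      intro p hp
      change (Rack.act' x0)⁻¹ ((k : Equiv.Perm P) ((Rack.act' x0)⁻¹⁻¹ p)) = p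
      rw [inv_inv, hk _ ((hfib3 p).1 hp), perm_inv_apply]
    have hw3 : f ((Rack.act' x0)⁻¹ w0) = q' := by
      rw [hq', ← act_fiber_self x0, perm_apply_inv]
      exact hw0
    have hk3w : (⟨_, hk3mem⟩ : relInn f) • (⟨(Rack.act' x0)⁻¹ w0, hw3⟩ : Fiber f q')
        ≠ ⟨(Rack.act' x0)⁻¹ w0, hw3⟩ := by
      intro h
      apply hkw0
      have h1 : (Rack.act' x0)⁻¹ ((k : Equiv.Perm P) ((Rack.act' x0)⁻¹⁻¹
          ((Rack.act' x0)⁻¹ w0))) = (Rack.act' x0)⁻¹ w0 := congrArg Subtype.val h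
      rw [inv_inv, perm_apply_inv] at h1
      exact (Rack.act' x0)⁻¹.injective h1
    refine no_semiregular (fiber_twoTrans hf q') (ptStab f q) ?_ ha hb (hnt a ha1) (hnt b hb1)
      (htr1 _ (mul_mem ha ha) ha2) (htr1 _ (mul_mem (mul_mem hb hb) hb) hb3)
    intro l hl w hlw w'
    obtain ⟨c, hc, hcw⟩ := normal_trans (fiber_twoTrans hf q') (ptStab f q3) hk3 hk3w w w'
    have hcomm1 : l⁻¹ * c⁻¹ * l * c ∈ ptStab f q := by
      have h1 : l⁻¹ * c⁻¹ * l * c = l⁻¹ * (c⁻¹ * l * c⁻¹⁻¹) := by group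
      rw [h1]
      exact mul_mem (inv_mem hl) (Subgroup.Normal.conj_mem inferInstance l hl _)
    have hcomm2 : l⁻¹ * c⁻¹ * l * c ∈ ptStab f q3 := by
      have h1 : l⁻¹ * c⁻¹ * l * c = (l⁻¹ * c⁻¹ * l⁻¹⁻¹) * c := by group
      rw [h1]
      exact mul_mem (Subgroup.Normal.conj_mem inferInstance _ (inv_mem hc) _) hc
    have hcomm3 : (l⁻¹ * c⁻¹ * l * c) • w = w :=
      Subtype.ext (step2 _ hcomm1 hcomm2 w.1 w.2)
    rw [mul_smul, mul_smul, mul_smul, inv_smul_eq_iff, inv_smul_eq_iff, hlw, hcw] at hcomm3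
    exact hcomm3
  -- Step 5
  have hker : ∀ g : relInn f, (∀ w : Fiber f q, g • w = w) ↔ (∀ w : Fiber f q', g • w = w) := by
    intro g
    constructor
    · intro h w
      have h1 : g ∈ ptStab f q := fun p hp => congrArg Subtype.val (h ⟨p, hp⟩)
      exact Subtype.ext (step4 h1 w.1 w.2)
    · intro h w
      have h1 : g ∈ ptStab f q' := fun p hp => congrArg Subtype.val (h ⟨p, hp⟩)
      exact Subtype.ext (step3 h1 w.1 w.2)
  have htriv : ∀ x : P, f x = q' → ∀ p : P, f p = q' → Rack.act' x p = p := by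
    intro x hx p hp
    have hkerx : ∀ g : relInn f,
        (∀ w : Fiber f q, g • w = w) ↔ (∀ w : Fiber f (f x), g • w = w) := by
      rw [hx]; exact hker
    have h1 := key' h6 (fiber_twoTrans hf q) (fiber_twoTrans hf (f x)) hkerx ⟨x, rfl⟩
      (fiberAct x) (Subtype.ext Quandle.fix)
      (by
        intro t ht w
        apply Subtype.ext
        have h2 : (t : Equiv.Perm P) x = x := congrArg Subtype.val ht
        exact (comm_act t.2.1 h2 w.1).symm) ⟨p, by rw [hx, hp]⟩
    exact congrArg Subtype.val h1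
  apply hne0
  have hdmem : (⟨_, act_act_inv_mem f hxy0⟩ : relInn f) ∈ ptStab f q' := by
    intro p hp
    change Rack.act' y0 ((Rack.act' x0)⁻¹ p) = p
    have h1 : (Rack.act' x0)⁻¹ p = p := by
      rw [Equiv.Perm.inv_eq_iff_eq, htriv x0 rfl p hp]
    rw [h1, htriv y0 hxy0.symm p hp]
  exact step3 hdmem p0 hp0

end Main

/-- **Main theorem.** No doubly transitive quandle homomorphism `f : P → Q` (no finiteness of
`P` or `Q` assumed) has a fiber with exactly six elements. In particular the trivial quandle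
of order `6` is not a fiber of a doubly transitive quandle homomorphism. -/
theorem result (P : Type u) (Q : Type v) [Quandle P] [Quandle Q] (f : ShelfHom P Q)
    (hf : IsDoublyTransitive f) (q : Q) : Nat.card {p : P // f p = q} ≠ 6 :=
  fun h6 => main hf h6

end Pool.Agent.Results.MP_4dd1f4_al.NoSixFiber
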